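import Pool.Agent.H22.VM.Targets

/-! Module CL of vmv_modules (MP_e21eee_nt): combinatorics of residue classes. -/

set_option autoImplicit false

open Finset Pool.Agent.H22.VM

namespace Pool.Agent.H87.VM

theorem cl : T_CL := by
  intro p hp ι R r
  have hp0 : (p : ℤ) ≠ 0 := by
    have : (0 : ℤ) < p := by exact_mod_cast (by omega : 0 < p)
    exact this.ne'
  have hpa : ∀ a : ℕ, (p : ℤ) ^ a ≠ 0 := fun a => pow_ne_zero a hp0
  have key2 : ∀ (a a' : ℕ) (ξ ζ : ℤ), a ≤ a' → (p : ℤ) ^ a ∣ ζ - ξ →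
      cls p R r a' ζ ⊆ cls p R r a ξ := by
    intro a a' ξ ζ h1 h2 i hi
    unfold cls at *
    rw [mem_filter] at *
    refine ⟨hi.1, ?_⟩
    have h3 := (pow_dvd_pow (p : ℤ) h1).trans hi.2
    have e : r i - ξ = (r i - ζ) + (ζ - ξ) := by ring
    rw [e]
    exact dvd_add h3 h2
  refine ⟨?_, key2, ?_, ?_, ?_⟩
  · intro a b ξ ζ
    ext i
    unfold cls
    simp only [mem_filter]
    constructor
    · rintro ⟨⟨h1, t, ht⟩, h3⟩
      refine ⟨h1, ?_⟩
      rw [ht, Int.mul_ediv_cancel_left _ (hpa a)] at h3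
      have e : r i - (ξ + (p : ℤ) ^ a * ζ) = (p : ℤ) ^ a * (t - ζ) := by
        rw [mul_sub, ← ht]
        ring
      rw [e, pow_add]
      exact mul_dvd_mul_left _ h3
    · rintro ⟨h1, h3⟩
      have h4 : (p : ℤ) ^ a ∣ r i - ξ := by
        have h5 : (p : ℤ) ^ a ∣ r i - (ξ + (p : ℤ) ^ a * ζ) :=
          (pow_dvd_pow (p : ℤ) (Nat.le_add_right a b)).trans h3
        have e : r i - ξ = (r i - (ξ + (p : ℤ) ^ a * ζ)) + (p : ℤ) ^ a * ζ := by ring
        rw [e]
        exact dvd_add h5 (dvd_mul_right _ _)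
      obtain ⟨t, ht⟩ := h4
      refine ⟨⟨h1, t, ht⟩, ?_⟩
      rw [ht, Int.mul_ediv_cancel_left _ (hpa a)]
      have e : r i - (ξ + (p : ℤ) ^ a * ζ) = (p : ℤ) ^ a * (t - ζ) := by
        rw [mul_sub, ← ht]
        ring
      rw [e, pow_add] at h3
      exact (mul_dvd_mul_iff_left (hpa a)).1 h3
  · intro a ξ ζ h
    refine Finset.Subset.antisymm (key2 a a ξ ζ le_rfl h) (key2 a a ζ ξ le_rfl ?_)
    rw [dvd_sub_comm]
    exact h
  · intro ξ
    unfold cls
    rw [Finset.filter_eq_self]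
    intro i _
    rw [pow_zero]
    exact one_dvd _
  · intro E _ f a a' ξ haa
    obtain ⟨c, rfl⟩ : ∃ c, a' = a + c := ⟨a' - a, by omega⟩
    rw [Nat.add_sub_cancel_left]
    have hP : (0 : ℤ) < (p : ℤ) ^ c := by
      have : (0 : ℤ) < p := by exact_mod_cast (by omega : 0 < p)
      positivity
    set g : ι → ℕ := fun i => (((r i - ξ) / (p : ℤ) ^ a) % (p : ℤ) ^ c).toNat with hg
    have hmaps : ∀ i ∈ cls p R r a ξ, g i ∈ range (p ^ c) := by
      intro i _
      rw [mem_range, hg]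
      have h1 := Int.emod_nonneg ((r i - ξ) / (p : ℤ) ^ a) hP.ne'
      have h2 := Int.emod_lt_of_pos ((r i - ξ) / (p : ℤ) ^ a) hP
      have h3 : (((((r i - ξ) / (p : ℤ) ^ a) % (p : ℤ) ^ c).toNat : ℕ) : ℤ) < ((p ^ c : ℕ) : ℤ) := by
        rw [Int.toNat_of_nonneg h1]
        push_cast
        exact h2
      exact_mod_cast h3
    rw [← Finset.sum_fiberwise_of_maps_to hmaps]
    refine Finset.sum_congr rfl fun j hj => ?_
    rw [mem_range] at hj
    refine Finset.sum_congr ?_ fun _ _ => rfl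
    have hcong : ∀ t : ℤ, (t % (p : ℤ) ^ c).toNat = j ↔ (p : ℤ) ^ c ∣ t - j := by
      intro t
      have hj' : (j : ℤ) % (p : ℤ) ^ c = j := by
        refine Int.emod_eq_of_lt (Int.natCast_nonneg j) ?_
        exact_mod_cast hj
      rw [← Int.emod_emod_of_dvd t (dvd_refl ((p : ℤ) ^ c))]
      constructor
      · intro h
        have h4 : t % (p : ℤ) ^ c % (p : ℤ) ^ c = (j : ℤ) := by
          rw [← h, Int.toNat_of_nonneg (Int.emod_nonneg _ hP.ne')]
        rw [Int.emod_emod_of_dvd t (dvd_refl _)] at h4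
        have h5 : (j : ℤ) ≡ t [ZMOD (p : ℤ) ^ c] := by
          unfold Int.ModEq
          rw [h4, hj']
        exact (Int.modEq_iff_dvd).1 h5
      · intro h
        have h5 : (j : ℤ) ≡ t [ZMOD (p : ℤ) ^ c] := (Int.modEq_iff_dvd).2 h
        unfold Int.ModEq at h5
        rw [Int.emod_emod_of_dvd t (dvd_refl _), ← h5, hj', Int.toNat_natCast]
    ext i
    unfold cls
    simp only [mem_filter]
    constructor
    · rintro ⟨⟨h1, t, ht⟩, h3⟩
      refine ⟨h1, ?_⟩
      simp only [hg] at h3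
      rw [ht, Int.mul_ediv_cancel_left _ (hpa a)] at h3
      have h5 : (p : ℤ) ^ c ∣ t - j := (hcong t).1 h3
      have e : r i - (ξ + (p : ℤ) ^ a * (j : ℤ)) = (p : ℤ) ^ a * (t - j) := by
        rw [mul_sub, ← ht]
        ring
      rw [e, pow_add]
      exact mul_dvd_mul_left _ h5
    · rintro ⟨h1, h3⟩
      have h4 : (p : ℤ) ^ a ∣ r i - ξ := by
        have h5 : (p : ℤ) ^ a ∣ r i - (ξ + (p : ℤ) ^ a * (j : ℤ)) :=
          (pow_dvd_pow (p : ℤ) (Nat.le_add_right a c)).trans h3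
        have e : r i - ξ = (r i - (ξ + (p : ℤ) ^ a * (j : ℤ))) + (p : ℤ) ^ a * (j : ℤ) := by ring
        rw [e]
        exact dvd_add h5 (dvd_mul_right _ _)
      obtain ⟨t, ht⟩ := h4
      refine ⟨⟨h1, t, ht⟩, ?_⟩
      have e : r i - (ξ + (p : ℤ) ^ a * (j : ℤ)) = (p : ℤ) ^ a * (t - j) := by
        rw [mul_sub, ← ht]
        ring
      rw [e, pow_add] at h3
      have h5 : (p : ℤ) ^ c ∣ t - j := (mul_dvd_mul_iff_left (hpa a)).1 h3
      simp only [hg]
      rw [ht, Int.mul_ediv_cancel_left _ (hpa a)]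
      exact (hcong t).2 h5

end Pool.Agent.H87.VM
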