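import Pool.Agent.H22.VM.Targets

/-! Module HO of vmv_modules (MP_e21eee_nt): weighted Hoelder inequality. -/

set_option autoImplicit false

open Finset Pool.Agent.H22.VM

namespace Pool.Agent.H87.VM

theorem ho : T_HO := by
  intro Ω _ w f g lam hw hf hg h0 h1
  rcases eq_or_lt_of_le h0 with rfl | h0'
  · simp
  rcases eq_or_lt_of_le h1 with rfl | h1'
  · simp
  have h2 : 0 < 1 - lam := by linarith
  have hpq : (1 / (1 - lam)).HolderConjugate (1 / lam) := by
    rw [Real.holderConjugate_iff]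
    refine ⟨?_, ?_⟩
    · rw [lt_div_iff₀ h2]
      linarith
    · rw [one_div, one_div, inv_inv, inv_inv]
      ring
  have key := Real.inner_le_Lp_mul_Lq_of_nonneg Finset.univ hpq
    (f := fun ω => (w ω * f ω) ^ (1 - lam)) (g := fun ω => (w ω * g ω) ^ lam)
    (fun ω _ => Real.rpow_nonneg (mul_nonneg (hw ω) (hf ω)) _)
    (fun ω _ => Real.rpow_nonneg (mul_nonneg (hw ω) (hg ω)) _)
  have e1 : ∀ ω, ((w ω * f ω) ^ (1 - lam)) ^ (1 / (1 - lam)) = w ω * f ω := by
    intro ω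
    rw [← Real.rpow_mul (mul_nonneg (hw ω) (hf ω)), mul_one_div_cancel h2.ne', Real.rpow_one]
  have e2 : ∀ ω, ((w ω * g ω) ^ lam) ^ (1 / lam) = w ω * g ω := by
    intro ω
    rw [← Real.rpow_mul (mul_nonneg (hw ω) (hg ω)), mul_one_div_cancel h0'.ne', Real.rpow_one]
  have e3 : ∀ ω, (w ω * f ω) ^ (1 - lam) * (w ω * g ω) ^ lam =
      w ω * (f ω ^ (1 - lam) * g ω ^ lam) := by
    intro ω
    rw [Real.mul_rpow (hw ω) (hf ω), Real.mul_rpow (hw ω) (hg ω)]
    have e4 : w ω ^ (1 - lam) * w ω ^ lam = w ω := by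
      rw [← Real.rpow_add_of_nonneg (hw ω) h2.le h0, sub_add_cancel, Real.rpow_one]
    calc w ω ^ (1 - lam) * f ω ^ (1 - lam) * (w ω ^ lam * g ω ^ lam) =
        (w ω ^ (1 - lam) * w ω ^ lam) * (f ω ^ (1 - lam) * g ω ^ lam) := by ring
      _ = _ := by rw [e4]
  simp only [e1, e2, e3] at key
  rw [one_div_one_div, one_div_one_div] at key
  exact key

end Pool.Agent.H87.VM
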