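import Pool.Agent.H22.VM.Targets

/-! Modules B0, BI of vmv_modules (MP_e21eee_nt): trivial bilinear bounds and interpolation. -/

set_option autoImplicit false

open Finset Pool.Agent.H22.VM

namespace Pool.Agent.H87.VM

theorem rpow_comb {x : ℝ} (hx : 0 ≤ x) {u v lam : ℝ} (hu : 0 ≤ u) (hv : 0 ≤ v) (h0 : 0 ≤ lam)
    (h1 : lam ≤ 1) : x ^ ((1 - lam) * u + lam * v) = (x ^ u) ^ (1 - lam) * (x ^ v) ^ lam := by
  have h2 : 0 ≤ 1 - lam := by linarith
  rw [Real.rpow_add_of_nonneg hx (mul_nonneg h2 hu) (mul_nonneg h0 hv), mul_comm (1 - lam) u,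
    mul_comm lam v, Real.rpow_mul hx, Real.rpow_mul hx]

/-- combination of two bounds with exponents adding to one -/
theorem comb_M {M : ℝ} (hM : 0 ≤ M) {lam : ℝ} (h0 : 0 ≤ lam) (h1 : lam ≤ 1) :
    M ^ (1 - lam) * M ^ lam = M := by
  have h2 : 0 ≤ 1 - lam := by linarith
  rw [← Real.rpow_add_of_nonneg hM h2 h0, sub_add_cancel, Real.rpow_one]

/-- the common interpolation step -/
theorem interp (hHO : T_HO) {Ω : Type} [Fintype Ω] (w U V : Ω → ℝ) (hw : ∀ ω, 0 ≤ w ω)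
    (hU : ∀ ω, 0 ≤ U ω) (hV : ∀ ω, 0 ≤ V ω) {lam M e₁ e₂ A B α₁ β₁ α₂ β₂ : ℝ} (h0 : 0 ≤ lam)
    (h1 : lam ≤ 1) (hM : 0 ≤ M) (hA : 0 < A) (hB : 0 < B)
    (hf : ∑ ω, w ω * U ω ≤ Real.exp e₁ * (A ^ α₁ * B ^ β₁) * M)
    (hg : ∑ ω, w ω * V ω ≤ Real.exp e₂ * (A ^ α₂ * B ^ β₂) * M) :
    ∑ ω, w ω * (U ω ^ (1 - lam) * V ω ^ lam) ≤
      Real.exp ((1 - lam) * e₁ + lam * e₂) *
        (A ^ ((1 - lam) * α₁ + lam * α₂) * B ^ ((1 - lam) * β₁ + lam * β₂)) * M := by
  have h2 : 0 ≤ 1 - lam := by linarith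
  have n1 : 0 ≤ ∑ ω, w ω * U ω := Finset.sum_nonneg fun ω _ => mul_nonneg (hw ω) (hU ω)
  have n2 : 0 ≤ ∑ ω, w ω * V ω := Finset.sum_nonneg fun ω _ => mul_nonneg (hw ω) (hV ω)
  have p1 : 0 ≤ Real.exp e₁ * (A ^ α₁ * B ^ β₁) := by positivity
  have p2 : 0 ≤ Real.exp e₂ * (A ^ α₂ * B ^ β₂) := by positivity
  calc ∑ ω, w ω * (U ω ^ (1 - lam) * V ω ^ lam)
      ≤ (∑ ω, w ω * U ω) ^ (1 - lam) * (∑ ω, w ω * V ω) ^ lam := hHO Ω w U V lam hw hU hV h0 h1
    _ ≤ (Real.exp e₁ * (A ^ α₁ * B ^ β₁) * M) ^ (1 - lam) *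
        (Real.exp e₂ * (A ^ α₂ * B ^ β₂) * M) ^ lam := by
        refine mul_le_mul (Real.rpow_le_rpow n1 hf h2) (Real.rpow_le_rpow n2 hg h0)
          (Real.rpow_nonneg n2 _) (Real.rpow_nonneg (n1.trans hf) _)
    _ = _ := by
        rw [Real.mul_rpow p1 hM, Real.mul_rpow p2 hM,
          Real.mul_rpow (Real.exp_nonneg _) (by positivity),
          Real.mul_rpow (Real.exp_nonneg _) (by positivity),
          Real.mul_rpow (by positivity) (by positivity),
          Real.mul_rpow (by positivity) (by positivity),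
          ← Real.exp_mul, ← Real.exp_mul, ← Real.rpow_mul hA.le, ← Real.rpow_mul hB.le,
          ← Real.rpow_mul hA.le, ← Real.rpow_mul hB.le]
        have hMM := comb_M hM h0 h1
        have hE : Real.exp ((1 - lam) * e₁ + lam * e₂) =
            Real.exp (e₁ * (1 - lam)) * Real.exp (e₂ * lam) := by
          rw [← Real.exp_add]
          congr 1
          ring
        have hAA : A ^ ((1 - lam) * α₁ + lam * α₂) = A ^ (α₁ * (1 - lam)) * A ^ (α₂ * lam) := by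
          rw [← Real.rpow_add hA]
          congr 1
          ring
        have hBB : B ^ ((1 - lam) * β₁ + lam * β₂) = B ^ (β₁ * (1 - lam)) * B ^ (β₂ * lam) := by
          rw [← Real.rpow_add hB]
          congr 1
          ring
        rw [hE, hAA, hBB]
        calc _ = Real.exp (e₁ * (1 - lam)) * Real.exp (e₂ * lam) *
              (A ^ (α₁ * (1 - lam)) * A ^ (α₂ * lam) *
                (B ^ (β₁ * (1 - lam)) * B ^ (β₂ * lam))) * (M ^ (1 - lam) * M ^ lam) := by ring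
          _ = _ := by rw [hMM]

theorem bi (hHO : T_HO) : T_BI := by
  intro p n a b s M L t₁ t₂ lam x y hp hM ht₁ hts₁ ht₂ hts₂ h0 h1 ι Ω _ w R r F hw hx hy ξ η hξ
  have hp0 : (0 : ℝ) < p := by exact_mod_cast (by omega : 0 < p)
  have hA : (0 : ℝ) < (p : ℝ) ^ (n - a) := by positivity
  have hB : (0 : ℝ) < (p : ℝ) ^ (n - b) := by positivity
  have h := interp hHO w
    (fun ω => ‖bs F (cls p R r a ξ) ω‖ ^ (2 * t₁) * ‖bs F (cls p R r b η) ω‖ ^ (2 * (s - t₁)))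
    (fun ω => ‖bs F (cls p R r a ξ) ω‖ ^ (2 * t₂) * ‖bs F (cls p R r b η) ω‖ ^ (2 * (s - t₂)))
    hw (fun ω => by positivity) (fun ω => by positivity) h0 h1 hM hA hB (hx ξ η hξ) (hy ξ η hξ)
  have e1 : (1 - lam) * (L - x) + lam * (L - y) = L - ((1 - lam) * x + lam * y) := by ring
  have e2 : (1 - lam) * (s - t₁) + lam * (s - t₂) = s - ((1 - lam) * t₁ + lam * t₂) := by ring
  rw [e1, e2] at h
  refine le_trans (le_of_eq ?_) h
  unfold mm
  refine Finset.sum_congr rfl fun ω _ => ?_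
  congr 1
  set X := ‖bs F (cls p R r a ξ) ω‖ with hX
  set Y := ‖bs F (cls p R r b η) ω‖ with hY
  have hX0 : 0 ≤ X := norm_nonneg _
  have hY0 : 0 ≤ Y := norm_nonneg _
  have f1 : 2 * ((1 - lam) * t₁ + lam * t₂) = (1 - lam) * (2 * t₁) + lam * (2 * t₂) := by ring
  have f2 : 2 * (s - ((1 - lam) * t₁ + lam * t₂)) =
      (1 - lam) * (2 * (s - t₁)) + lam * (2 * (s - t₂)) := by ring
  rw [f1, f2, rpow_comb hX0 (by linarith) (by linarith) h0 h1,
    rpow_comb hY0 (by linarith) (by linarith) h0 h1,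
    Real.mul_rpow (Real.rpow_nonneg hX0 _) (Real.rpow_nonneg hY0 _),
    Real.mul_rpow (Real.rpow_nonneg hX0 _) (Real.rpow_nonneg hY0 _)]
  ring

/-- the interpolation between the moments of the two classes -/
theorem mo_interp (hHO : T_HO) {ι Ω : Type} [Fintype Ω] (w : Ω → ℝ) (F : ι → Ω → ℂ)
    (hw : ∀ ω, 0 ≤ w ω) (I J : Finset ι) {s t M e₁ e₂ A B : ℝ} (hs : 0 < s) (ht : 0 ≤ t)
    (hts : t ≤ s) (hM : 0 ≤ M) (hA : 0 < A) (hB : 0 < B)
    (hI : mo w F s I ≤ Real.exp e₁ * A ^ s * M) (hJ : mo w F s J ≤ Real.exp e₂ * B ^ s * M) :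
    mm w F I t J (s - t) ≤
      Real.exp (t / s * e₁ + (1 - t / s) * e₂) * (A ^ t * B ^ (s - t)) * M := by
  have hl0 : 0 ≤ 1 - t / s := by
    rw [sub_nonneg, div_le_one hs]
    exact hts
  have hl1 : 1 - t / s ≤ 1 := by
    have : 0 ≤ t / s := div_nonneg ht hs.le
    linarith
  have h := interp hHO w (fun ω => ‖bs F I ω‖ ^ (2 * s)) (fun ω => ‖bs F J ω‖ ^ (2 * s)) hw
    (fun ω => by positivity) (fun ω => by positivity) (e₁ := e₁) (e₂ := e₂) (α₁ := s) (β₁ := 0)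
    (α₂ := 0) (β₂ := s) hl0 hl1 hM hA hB (by
      rw [Real.rpow_zero, mul_one]
      exact hI) (by
      rw [Real.rpow_zero, one_mul]
      exact hJ)
  have e1 : 1 - (1 - t / s) = t / s := by ring
  have e2 : t / s * s + (1 - t / s) * 0 = t := by
    rw [mul_zero, add_zero]
    exact div_mul_cancel₀ t hs.ne'
  have e3 : t / s * 0 + (1 - t / s) * s = s - t := by
    rw [mul_zero, zero_add, sub_mul, one_mul, div_mul_cancel₀ t hs.ne']
  rw [e1, e2, e3] at h
  refine le_trans (le_of_eq ?_) h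
  unfold mm
  refine Finset.sum_congr rfl fun ω _ => ?_
  congr 1
  rw [← Real.rpow_mul (norm_nonneg _), ← Real.rpow_mul (norm_nonneg _)]
  congr 2
  · rw [mul_assoc, mul_div_cancel₀ t hs.ne']
  · field_simp

theorem b0 (hHO : T_HO) : T_B0 := by
  intro p n s M L hp hM hs ι Ω _ w R r F hw hmo hfin
  have hp0 : (0 : ℝ) < p := by exact_mod_cast (by omega : 0 < p)
  refine ⟨?_, ?_, ?_, ?_⟩
  · intro t a b ht hts ha hb ξ η _
    have h := mo_interp hHO w F hw (cls p R r a ξ) (cls p R r b η) hs ht hts hM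
      (by positivity : (0 : ℝ) < (p : ℝ) ^ (n - a)) (by positivity : (0 : ℝ) < (p : ℝ) ^ (n - b))
      (hmo a ha ξ) (hmo b hb η)
    rw [show t / s * L + (1 - t / s) * L = L - 0 by ring] at h
    exact h
  · intro t b ht hts hb ξ η _
    have h := mo_interp hHO w F hw (cls p R r n ξ) (cls p R r b η) (e₁ := 0)
      (A := (p : ℝ) ^ (n - n)) hs ht hts hM
      (by positivity) (by positivity : (0 : ℝ) < (p : ℝ) ^ (n - b)) (by
        rw [Real.exp_zero, Nat.sub_self, pow_zero, Real.one_rpow, one_mul, one_mul]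
        exact hfin ξ) (hmo b hb η)
    rw [show t / s * 0 + (1 - t / s) * L = L - t / s * L by ring] at h
    exact h
  · intro t a b x h ξ η hξ
    have h1 := h η ξ (fun h' => hξ (by rw [dvd_sub_comm]; exact h'))
    unfold mm at *
    rw [sub_sub_cancel]
    refine le_trans (le_of_eq ?_) (h1.trans (le_of_eq ?_))
    · refine Finset.sum_congr rfl fun ω _ => ?_
      rw [mul_comm (‖bs F (cls p R r b ξ) ω‖ ^ (2 * (s - t)))]
    · rw [mul_comm (((p : ℝ) ^ (n - a)) ^ t)]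
  · intro t a b x y hyx h ξ η hξ
    refine (h ξ η hξ).trans ?_
    have h1 : Real.exp (L - x) ≤ Real.exp (L - y) := Real.exp_le_exp.2 (by linarith)
    gcongr

end Pool.Agent.H87.VM
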